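import Mathlib
import Pool.Agent.Lib.helper3.L2W

namespace Pool.Agent.Results.MP_9e58cf_an.Counterexample

open scoped InnerProductSpace
open Pool.Agent.Lib.H3L2W

/-- `K` is of trace class: `∑ ⟨|K| bᵢ, bᵢ⟩ < ∞` for an orthonormal basis `b`, `|K| = (K*K)^(1/2)`. -/
def IsTraceClass {H : Type} [NormedAddCommGroup H] [InnerProductSpace ℂ H] [CompleteSpace H]
    (K : H →L[ℂ] H) : Prop :=
  ∃ (ι : Type) (b : HilbertBasis ι ℂ H),
    Summable fun i => (⟪b i, CFC.sqrt (star K * K) (b i)⟫_ℂ).re

section
variable {H : Type} [NormedAddCommGroup H] [InnerProductSpace ℂ H]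

/-- The resolvent `R_z = (T - zI)⁻¹`. -/
noncomputable def res (T : H →L[ℂ] H) (z : ℂ) : H →L[ℂ] H :=
  Ring.inverse (T - algebraMap ℂ (H →L[ℂ] H) z)

/-- The set of resolvents `R_z`, `z ∉ σ(T)`. -/
def resolvents (T : H →L[ℂ] H) : Set (H →L[ℂ] H) := {R | ∃ z : ℂ, z ∉ spectrum ℂ T ∧ R = res T z}

/-- The linear span of the resolvents. -/
def resSpan (T : H →L[ℂ] H) : Set (H →L[ℂ] H) := Submodule.span ℂ (resolvents T)

/-- `S` lies in the closure of `A` for the weak operator topology. -/
def MemWOTClosure (S : H →L[ℂ] H) (A : Set (H →L[ℂ] H)) : Prop :=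
  ContinuousLinearMapWOT.ofCLM S ∈ closure (ContinuousLinearMapWOT.ofCLM '' A)

/-- The bicommutant `{T}''`. -/
def bicommutant (T : H →L[ℂ] H) : Set (H →L[ℂ] H) := Set.centralizer (Set.centralizer {T})

/-- `T` is almost isometric: `I - T*T` is of trace class. -/
def AlmostIsometric [CompleteSpace H] (T : H →L[ℂ] H) : Prop := IsTraceClass (1 - star T * T)

end

lemma traceClass_of {H : Type} [NormedAddCommGroup H] [InnerProductSpace ℂ H] [CompleteSpace H]
    (K : H →L[ℂ] H) {ι : Type} (b : HilbertBasis ι ℂ H) (h : Summable fun i => ‖K (b i)‖) :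
    IsTraceClass K := by
  refine ⟨ι, b, Summable.of_norm_bounded h fun i => ?_⟩
  set A := CFC.sqrt (star K * K)
  have hA : star A = A := (CFC.sqrt_nonneg _).isSelfAdjoint
  have hAA : star A * A = star K * K := by
    rw [hA]; exact CFC.sqrt_mul_sqrt_self _ (star_mul_self_nonneg K)
  have h1 : ‖A (b i)‖ = ‖K (b i)‖ := by
    have e : ∀ B : H →L[ℂ] H, ‖B (b i)‖ ^ 2 = RCLike.re ⟪b i, (star B * B) (b i)⟫_ℂ := fun B => by
      rw [← inner_self_eq_norm_sq (𝕜 := ℂ), ContinuousLinearMap.star_eq_adjoint]
      change _ = RCLike.re ⟪b i, ContinuousLinearMap.adjoint B (B (b i))⟫_ℂ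
      rw [ContinuousLinearMap.adjoint_inner_right]
    refine (sq_eq_sq₀ (norm_nonneg _) (norm_nonneg _)).1 ?_
    rw [e, e, hAA]
  refine (Complex.abs_re_le_norm _).trans ((norm_inner_le_norm _ _).trans ?_)
  rw [b.orthonormal.1 i, one_mul, h1]

noncomputable def wt : Option ℤ → ℂ
  | none => 0
  | some n => (1 / 2) ^ n.natAbs

def sg : Option ℤ ≃ Option ℤ := Equiv.optionCongr (Equiv.subRight 1)

lemma wt_norm (n : ℤ) : ‖wt (some n)‖ = (1 / 2) ^ n.natAbs := by simp [wt]

lemma wt_summable : Summable fun i => ‖wt i‖ := by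
  have h : Summable fun n : ℤ => ‖wt (some n)‖ := by
    simp only [wt_norm]
    refine Summable.of_nat_of_neg ?_ ?_ <;> simpa using summable_geometric_two
  refine (Option.some_injective ℤ).summable_iff ?_ |>.1 h
  intro x hx
  cases x with
  | none => simp [wt]
  | some n => exact absurd ⟨n, rfl⟩ hx

lemma vanish (u : ℤ → ℂ) (C : ℝ) (hC : ∀ n, ‖u n‖ ≤ C) (μ : ℂ) (hμ : μ ≠ 0)
    (h : ∀ n < 0, μ * u n + wt (some n) * u (n - 1) = 0) : u (-1) = 0 := by
  have hp : 0 < ‖μ‖ := norm_pos_iff.2 hμ
  obtain ⟨M, hM⟩ := exists_pow_lt_of_lt_one (half_pos hp) (show (1 / 2 : ℝ) < 1 by norm_num)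
  have h1 : ∀ k : ℕ, ∀ n : ℤ, n < -M → ‖u n‖ ≤ C * (1 / 2) ^ k := by
    intro k
    induction k with
    | zero => intro n _; simpa using hC n
    | succ k ih =>
      intro n hn
      have e := congrArg norm (eq_neg_of_add_eq_zero_left (h n (by omega)))
      rw [norm_neg, norm_mul, norm_mul, wt_norm] at e
      have h2 : (1 / 2 : ℝ) ^ n.natAbs ≤ (1 / 2) ^ M :=
        pow_le_pow_of_le_one (by norm_num) (by norm_num) (by omega)
      have h3 := ih (n - 1) (by omega)
      have h4 : ‖μ‖ * ‖u n‖ ≤ ‖μ‖ / 2 * (C * (1 / 2) ^ k) := by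
        rw [e]; exact mul_le_mul (h2.trans hM.le) h3 (norm_nonneg _) (by positivity)
      rw [pow_succ]
      nlinarith
  have h2 : ∀ n : ℤ, n < -M → u n = 0 := fun n hn => by
    have := (tendsto_pow_atTop_nhds_zero_of_lt_one (r := (1 / 2 : ℝ)) (by norm_num)
      (by norm_num)).const_mul C
    rw [mul_zero] at this
    exact norm_le_zero_iff.1 (ge_of_tendsto' this fun k => h1 k n hn)
  have h3 : ∀ k : ℕ, ∀ n : ℤ, n < -M + k → n < 0 → u n = 0 := by
    intro k
    induction k with
    | zero => intro n hn _; exact h2 n (by simpa using hn)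
    | succ k ih =>
      intro n hn hn0
      have := h n hn0
      rw [ih (n - 1) (by omega) (by omega), mul_zero, add_zero] at this
      exact (mul_eq_zero.1 this).resolve_left hμ
  exact h3 M (-1) (by omega) (by omega)

/-- An almost isometric operator `T` (`I - T*T` of trace class) and an operator `S` in its
bicommutant outside the WOT-closure of the linear span of the resolvents `(T - z)⁻¹`. -/
theorem result :
    ∃ (H : Type) (_ : NormedAddCommGroup H) (_ : InnerProductSpace ℂ H) (_ : CompleteSpace H)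
      (T : H →L[ℂ] H), AlmostIsometric T ∧
      ∃ S ∈ bicommutant T, ¬ MemWOTClosure S (resSpan T) := by
  classical
  obtain ⟨N, hN, hN1⟩ := exists_wcomp wt sg sg.injective 1 zero_le_one fun i => by
    cases i with
    | none => simp [wt]
    | some n => rw [wt_norm]; exact pow_le_one₀ (by norm_num) (by norm_num)
  let e : Option ℤ → lp (fun _ : Option ℤ => ℂ) 2 := fun i => lp.single 2 i 1
  have he : ∀ i j, e i j = if j = i then 1 else 0 := fun i j => by
    simp [e, lp.single_apply, Pi.single_apply]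
  have hen : ∀ i, ‖e i‖ = 1 := fun i => by simp [e, lp.norm_single]
  have hin : ∀ i (f : lp (fun _ : Option ℤ => ℂ) 2), ⟪e i, f⟫_ℂ = f i := fun i f => by
    simp [e, lp.inner_single_left]
  have hNe : ∀ i, N (e (sg i)) = wt i • e i := fun i => by
    ext j
    rw [hN, lp.coeFn_smul, Pi.smul_apply, he, he]
    by_cases h : j = i <;> simp [h]
  let P : lp (fun _ : Option ℤ => ℂ) 2 →L[ℂ] lp (fun _ : Option ℤ => ℂ) 2 :=
    (innerSL ℂ (e none)).smulRight (e none)
  have hP : ∀ f, P f = f none • e none := fun f => by simp [P, hin]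
  refine ⟨lp (fun _ : Option ℤ => ℂ) 2, inferInstance, inferInstance, inferInstance, 1 + N, ?_,
    P, ?_, ?_⟩
  · have hb : ∀ i, (default : HilbertBasis (Option ℤ) ℂ (lp (fun _ : Option ℤ => ℂ) 2)) i = e i :=
      fun i => (HilbertBasis.repr_symm_single _ i).symm
    refine traceClass_of _ (default : HilbertBasis (Option ℤ) ℂ _) ?_
    simp only [hb]
    have h1 : ∀ i, ‖N (e i)‖ = ‖wt (sg.symm i)‖ := fun i => by
      conv_lhs => rw [← sg.apply_symm_apply i, hNe, norm_smul, hen, mul_one]
    have h2 : ∀ i, ‖star N (e i)‖ ≤ ‖wt i‖ := fun i => by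
      have a1 : ‖star N (e i)‖ ^ 2 ≤ ‖wt i‖ * ‖star N (e i)‖ := by
        rw [← inner_self_eq_norm_sq (𝕜 := ℂ)]
        refine (RCLike.re_le_norm _).trans ?_
        nth_rw 1 [ContinuousLinearMap.star_eq_adjoint]
        rw [ContinuousLinearMap.adjoint_inner_left, hin, hN, norm_mul]
        gcongr
        exact lp.norm_apply_le_norm (by norm_num) _ _
      rcases (norm_nonneg (star N (e i))).eq_or_lt with h | h
      · rw [← h]; exact norm_nonneg _
      · nlinarith
    refine Summable.of_nonneg_of_le (fun _ => norm_nonneg _) (fun i => ?_)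
      (((sg.symm.summable_iff.2 wt_summable).mul_left 2).add wt_summable)
    have e1 : (1 - star (1 + N) * (1 + N)) (e i) = -(N (e i) + star N (N (e i)) + star N (e i)) := by
      rw [show 1 - star (1 + N) * (1 + N) = -(N + star N * N + star N) by
        rw [star_add, star_one]; noncomm_ring]
      rfl
    have h3 := (star N).le_opNorm (N (e i))
    rw [show ‖star N‖ = ‖N‖ from norm_star N] at h3
    have h4 : ‖N‖ * ‖N (e i)‖ ≤ 1 * ‖N (e i)‖ := by gcongr
    rw [e1, norm_neg]
    have := norm_add₃_le (a := N (e i)) (b := star N (N (e i))) (c := star N (e i))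
    have h5 := h2 i
    simp only [Function.comp_apply, ← h1]
    linarith
  · intro Y hY
    have h0 : (1 + N) * Y = Y * (1 + N) := hY (1 + N) rfl
    have h1 : ∀ f, N (Y f) = Y (N f) := fun f => by
      rw [add_mul, mul_add, one_mul, mul_one, add_right_inj] at h0
      exact congrArg (fun A : _ →L[ℂ] _ => A f) h0
    have hw : ∀ n : ℤ, wt (some n) ≠ 0 := fun n => by simp [wt]
    refine lp.ext_continuousLinearMap (by norm_num) fun i => ?_
    ext1
    change Y (P (e i)) = P (Y (e i))
    rw [hP, hP, he]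
    cases i with
    | none =>
      have a1 : N (e none) = 0 := by
        have := hNe none
        rwa [show wt none = 0 from rfl, zero_smul] at this
      have a2 := h1 (e none)
      rw [a1, map_zero] at a2
      ext j
      cases j with
      | none => simp [he]
      | some m =>
        have := congrArg (fun f : lp (fun _ : Option ℤ => ℂ) 2 => f (some (m + 1))) a2
        simp only [hN, lp.coeFn_zero, Pi.zero_apply, mul_eq_zero, hw, false_or] at this
        simpa [he, sg] using this
    | some m =>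
      have a2 := congrArg (fun f : lp (fun _ : Option ℤ => ℂ) 2 => f none) (h1 (e (sg (some m))))
      simp only [hN, hNe, map_smul, lp.coeFn_smul, Pi.smul_apply, smul_eq_mul] at a2
      have a3 : Y (e (some m)) none = 0 :=
        (mul_eq_zero.1 (a2.symm.trans (by simp [wt]))).resolve_left (hw m)
      simp [a3]
  · intro hcl
    have hc : IsClosed {A : lp (fun _ : Option ℤ => ℂ) 2 →WOT[ℂ] lp (fun _ : Option ℤ => ℂ) 2 |
        ⟪e (some 0), A (e (some 0))⟫_ℂ = ⟪e none, A (e none)⟫_ℂ} :=
      isClosed_eq (ContinuousLinearMapWOT.continuous_iff.1 continuous_id _ _)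
        (ContinuousLinearMapWOT.continuous_iff.1 continuous_id _ _)
    have := closure_minimal ?_ hc hcl
    · simp [hin, hP, he] at this
    rintro _ ⟨R, hR, rfl⟩
    change ⟪e (some 0), R (e (some 0))⟫_ℂ = ⟪e none, R (e none)⟫_ℂ
    rw [hin, hin]
    induction hR using Submodule.span_induction with
    | zero => simp
    | add x y _ _ hx hy => simp [hx, hy]
    | smul c x _ hx => simp [hx]
    | mem R hR =>
      obtain ⟨z, hz, rfl⟩ := hR
      unfold res
      have hu : IsUnit (1 + N - algebraMap ℂ _ z) := by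
        rw [← IsUnit.neg_iff, neg_sub]; exact spectrum.notMem_iff.1 hz
      set R := Ring.inverse (1 + N - algebraMap ℂ _ z)
      have hR : ∀ f i, (1 - z) * R f i + wt i * R f (sg i) = f i := fun f i => by
        have := congrArg (fun A : lp (fun _ : Option ℤ => ℂ) 2 →L[ℂ] lp (fun _ : Option ℤ => ℂ) 2 =>
          A f i) (Ring.mul_inverse_cancel _ hu)
        simp only [mul_apply_eq_comp, sub_apply, add_apply, one_apply_eq_self,
          ContinuousLinearMap.algebraMap_apply, lp.coeFn_sub, lp.coeFn_add, lp.coeFn_smul,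
          Pi.sub_apply, Pi.add_apply, Pi.smul_apply, smul_eq_mul, hN] at this
        rw [← this]; ring
      have a1 := hR (e none) none
      simp only [wt, zero_mul, add_zero, he, if_true] at a1
      have hμ : 1 - z ≠ 0 := left_ne_zero_of_mul_eq_one a1
      have a2 := vanish (fun n => R (e (some 0)) (some n)) ‖R (e (some 0))‖
        (fun n => lp.norm_apply_le_norm (by norm_num) _ _) (1 - z) hμ fun n hn => by
          have := hR (e (some 0)) (some n)
          rw [he, if_neg (by simp; omega)] at this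
          exact this
      have a3 := hR (e (some 0)) (some 0)
      rw [he, if_pos rfl, show sg (some 0) = some (-1) from rfl, a2, mul_zero, add_zero] at a3
      exact mul_left_cancel₀ hμ (a3.trans a1.symm)

end Pool.Agent.Results.MP_9e58cf_an.Counterexample
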